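import Mathlib

/-!
Power sums of the roots of `z^3 + z = w` over the field with two elements, and the
linear algebra behind regular Steinhaus graphs of odd degree.
-/

set_option autoImplicit false

namespace Pool.Agent.TH846.St

open Polynomial

/-- `pw n` is the `n`-th power sum of the roots of `z^3 + z = w` over the field with two elements,
as a polynomial in `w`. -/
noncomputable def pw : ℕ → (ZMod 2)[X]
  | 0 => 1
  | 1 => 0
  | 2 => 0
  | (n + 3) => pw (n + 1) + X * pw n

/-- `tau i j` is the sum of `z^i (1+z)^j` over the roots `z` of `z^3 + z = w`. -/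
noncomputable def tau : ℕ → ℕ → (ZMod 2)[X]
  | i, 0 => pw i
  | i, (j + 1) => tau i j + tau (i + 1) j

theorem pw_zero : pw 0 = 1 := by rw [pw]
theorem pw_one : pw 1 = 0 := by rw [pw]
theorem pw_two : pw 2 = 0 := by rw [pw]
theorem pw_succ (n : ℕ) : pw (n + 3) = pw (n + 1) + X * pw n := by rw [pw]

theorem tau_zero (i : ℕ) : tau i 0 = pw i := by rw [tau]
theorem tau_succ (i j : ℕ) : tau i (j + 1) = tau i j + tau (i + 1) j := by rw [tau]

theorem tau_rec (j : ℕ) : ∀ i, tau (i + 3) j = tau (i + 1) j + X * tau i j := by
  induction j with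
  | zero => intro i; simp only [tau_zero]; exact pw_succ i
  | succ j ih =>
    intro i
    rw [tau_succ, tau_succ, tau_succ, ih i, show i + 3 + 1 = (i + 1) + 3 by ring, ih (i + 1)]
    ring

theorem tau_two (i j : ℕ) : tau i (j + 2) = tau i j + tau (i + 2) j := by
  rw [show j + 2 = (j + 1) + 1 by ring, tau_succ, tau_succ, tau_succ]
  have h : tau (i + 1) j + tau (i + 1) j = 0 := CharTwo.add_self_eq_zero _
  rw [show i + 1 + 1 = i + 2 by ring]
  linear_combination h

theorem tau_zyy (i j : ℕ) : tau (i + 1) (j + 2) = X * tau i j := by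
  rw [tau_two, show i + 1 + 2 = i + 3 by ring, tau_rec]
  have h : tau (i + 1) j + tau (i + 1) j = 0 := CharTwo.add_self_eq_zero _
  linear_combination h

theorem pw_deg (n : ℕ) : ∀ k, n < 3 * k → (pw n).coeff k = 0 := by
  induction n using Nat.strong_induction_on with
  | _ n ih =>
    intro k hk
    match n, ih, hk with
    | 0, _, hk => rw [pw_zero, coeff_one, if_neg (by omega)]
    | 1, _, _ => rw [pw_one, coeff_zero]
    | 2, _, _ => rw [pw_two, coeff_zero]
    | (m + 3), ih, hk =>
      obtain ⟨k', rfl⟩ : ∃ k', k = k' + 1 := ⟨k - 1, by omega⟩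
      rw [pw_succ, coeff_add, coeff_X_mul, ih (m + 1) (by omega) _ (by omega),
        ih m (by omega) _ (by omega), add_zero]

theorem tau_deg (j : ℕ) : ∀ i k, i + j < 3 * k → (tau i j).coeff k = 0 := by
  induction j with
  | zero => intro i k hk; rw [tau_zero]; exact pw_deg i k (by omega)
  | succ j ih =>
    intro i k hk
    rw [tau_succ, coeff_add, ih i k (by omega), ih (i + 1) k (by omega), add_zero]

theorem pw_lead (m : ℕ) : (pw (3 * m)).coeff m = 1 := by
  induction m with
  | zero => rw [pw_zero]; simp
  | succ m ih =>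
    rw [show 3 * (m + 1) = 3 * m + 3 by ring, pw_succ, coeff_add, coeff_X_mul, ih,
      pw_deg _ _ (by omega), zero_add]

theorem tau_lead (j : ℕ) : ∀ i m, i + j = 3 * m → (tau i j).coeff m = 1 := by
  induction j with
  | zero => intro i m h; rw [tau_zero, show i = 3 * m by omega]; exact pw_lead m
  | succ j ih =>
    intro i m h
    rw [tau_succ, coeff_add, ih (i + 1) m (by omega), tau_deg j i m (by omega), zero_add]

theorem pw_coeff_zero (n : ℕ) : 1 ≤ n → (pw n).coeff 0 = 0 := by
  induction n using Nat.strong_induction_on with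
  | _ n ih =>
    intro hn
    match n, ih, hn with
    | 0, _, hn => omega
    | 1, _, _ => rw [pw_one, coeff_zero]
    | 2, _, _ => rw [pw_two, coeff_zero]
    | (m + 3), ih, hn =>
      rw [pw_succ, coeff_add, ih (m + 1) (by omega) (by omega)]
      simp [mul_comm X]

/-- the coefficient of `w` in `pw n` is `1` for odd `n ≥ 3` and `0` for even `n` and `n = 1` -/
theorem pw_coeff_one (n : ℕ) :
    (pw (2 * n + 3)).coeff 1 = 1 ∧ (pw (2 * n)).coeff 1 = 0 := by
  induction n with
  | zero =>
    refine ⟨?_, ?_⟩
    · rw [show 2 * 0 + 3 = 0 + 3 by ring, pw_succ, coeff_add, coeff_X_mul, pw_one, pw_zero]; simp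
    · rw [show 2 * 0 = 0 by ring, pw_zero, coeff_one]; simp
  | succ n ih =>
    obtain ⟨h1, h2⟩ := ih
    refine ⟨?_, ?_⟩
    · rw [show 2 * (n + 1) + 3 = (2 * n + 2) + 3 by ring, pw_succ, coeff_add,
        show 2 * n + 2 + 1 = 2 * n + 3 by ring, h1, coeff_X_mul,
        pw_coeff_zero _ (by omega), add_zero]
    · rcases Nat.eq_zero_or_pos n with rfl | hn
      · rw [show 2 * (0 + 1) = 2 by ring, pw_two, coeff_zero]
      · rw [show 2 * (n + 1) = (2 * n - 1) + 3 by omega, pw_succ, coeff_add,
          show 2 * n - 1 + 1 = 2 * n by omega, h2, coeff_X_mul,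
          pw_coeff_zero _ (by omega), add_zero]

theorem pw_six (m : ℕ) : pw (m + 6) = pw (m + 2) + X ^ 2 * pw m := by
  rw [show m + 6 = (m + 3) + 3 by ring, pw_succ, show m + 3 + 1 = (m + 1) + 3 by ring, pw_succ,
    pw_succ]
  have h : X * pw (m + 1) + X * pw (m + 1) = 0 := CharTwo.add_self_eq_zero _
  rw [show m + 1 + 1 = m + 2 by ring]
  linear_combination h

theorem pw_double (n : ℕ) : pw (2 * n) = expand (ZMod 2) 2 (pw n) := by
  induction n using Nat.strong_induction_on with
  | _ n ih =>
    match n, ih with
    | 0, _ => rw [mul_zero, pw_zero]; simp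
    | 1, _ => rw [mul_one, pw_one, pw_two]; simp
    | 2, _ =>
      rw [show 2 * 2 = 1 + 3 by ring, pw_succ, show 1 + 1 = 2 by ring, pw_one, pw_two]; simp
    | (m + 3), ih =>
      rw [show 2 * (m + 3) = 2 * m + 6 by ring, pw_six, pw_succ,
        show 2 * m + 2 = 2 * (m + 1) by ring, ih (m + 1) (by omega), ih m (by omega)]
      simp only [map_add, map_mul, expand_X]

/-- for `o ≥ 3` odd, the polynomial `pw (2^e o)` starts with `w^(2^e)` -/
theorem pw_low (o : ℕ) (e : ℕ) :
    (∀ k, k < 2 ^ e → (pw (2 ^ e * (2 * o + 3))).coeff k = 0) ∧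
      (pw (2 ^ e * (2 * o + 3))).coeff (2 ^ e) = 1 := by
  induction e with
  | zero =>
    refine ⟨?_, ?_⟩
    · intro k hk
      have : k = 0 := by simpa using hk
      subst this
      exact pw_coeff_zero _ (by omega)
    · simpa using (pw_coeff_one o).1
  | succ e ih =>
    obtain ⟨h1, h2⟩ := ih
    have hrw : 2 ^ (e + 1) * (2 * o + 3) = 2 * (2 ^ e * (2 * o + 3)) := by ring
    rw [hrw, pw_double]
    refine ⟨?_, ?_⟩
    · intro k hk
      rw [coeff_expand (by norm_num)]
      split_ifs with hd
      · apply h1
        obtain ⟨c, rfl⟩ := hd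
        rw [Nat.mul_div_cancel_left _ (by norm_num)]
        rw [pow_succ] at hk
        omega
      · rfl
    · rw [pow_succ, coeff_expand_mul (by norm_num)]
      exact h2

/-- low coefficients of `tau` -/
theorem tau_low (k : ℕ) : ∀ i j, k < i → 2 * k ≤ j → (tau i j).coeff k = 0 := by
  induction k with
  | zero =>
    intro i j hi _
    induction j generalizing i with
    | zero => rw [tau_zero]; exact pw_coeff_zero i hi
    | succ j ih => rw [tau_succ, coeff_add, ih i hi (by omega), ih (i + 1) (by omega) (by omega), add_zero]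
  | succ k ih =>
    intro i j hi hj
    obtain ⟨i', rfl⟩ : ∃ i', i = i' + 1 := ⟨i - 1, by omega⟩
    obtain ⟨j', rfl⟩ : ∃ j', j = j' + 2 := ⟨j - 2, by omega⟩
    rw [tau_zyy, coeff_X_mul]
    exact ih i' j' (by omega) (by omega)

theorem pw_pair (m : ℕ) (hm : 2 ≤ m) : (pw m + pw (m + 1)).coeff 1 = 1 := by
  rw [coeff_add]
  rcases Nat.even_or_odd' m with ⟨c, rfl | rfl⟩
  · rw [(pw_coeff_one c).2, show 2 * c + 1 = 2 * (c - 1) + 3 by omega, (pw_coeff_one (c - 1)).1,
      zero_add]
  · rw [show 2 * c + 1 + 1 = 2 * (c + 1) by ring, (pw_coeff_one (c + 1)).2,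
      show 2 * c + 1 = 2 * (c - 1) + 3 by omega, (pw_coeff_one (c - 1)).1, add_zero]

/-- the coefficient of `w^v` in `tau i (2v-1)` is one for `i > v` -/
theorem tau_first (v : ℕ) : ∀ i, v + 2 ≤ i → (tau i (2 * v + 1)).coeff (v + 1) = 1 := by
  induction v with
  | zero =>
    intro i hi
    rw [show 2 * 0 + 1 = 0 + 1 by ring, tau_succ, tau_zero, tau_zero, zero_add]
    exact pw_pair i (by omega)
  | succ v ih =>
    intro i hi
    obtain ⟨i', rfl⟩ : ∃ i', i = i' + 1 := ⟨i - 1, by omega⟩
    rw [show 2 * (v + 1) + 1 = (2 * v + 1) + 2 by ring, tau_zyy, coeff_X_mul]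
    exact ih i' (by omega)

theorem tau_shift (k : ℕ) : ∀ i j, tau (i + k) (j + 2 * k) = X ^ k * tau i j := by
  induction k with
  | zero => intro i j; simp
  | succ k ih =>
    intro i j
    rw [show i + (k + 1) = (i + k) + 1 by ring, show j + 2 * (k + 1) = (j + 2 * k) + 2 by ring,
      tau_zyy, ih]
    ring

/-- evaluation of a functional on a polynomial with a controlled support -/
theorem eval_single (ρ : (ZMod 2)[X] →ₗ[ZMod 2] ZMod 2) (f : (ZMod 2)[X]) (v : ℕ)
    (h1 : f.coeff v = 1) (h0 : ∀ k, k ≠ v → f.coeff k = 0 ∨ ρ (X ^ k) = 0) :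
    ρ f = ρ (X ^ v) := by
  have hf : f = f.sum fun k a => C a * X ^ k := (sum_C_mul_X_pow_eq f).symm
  rw [hf, Polynomial.sum, map_sum]
  have hterm : ∀ k ∈ f.support, ρ (C (f.coeff k) * X ^ k) = if k = v then ρ (X ^ v) else 0 := by
    intro k _
    rw [← smul_eq_C_mul, map_smul]
    split_ifs with hk
    · subst hk; rw [h1, one_smul]
    · rcases h0 k hk with h | h
      · rw [h, zero_smul]
      · rw [h, smul_zero]
  rw [Finset.sum_congr rfl hterm, Finset.sum_ite_eq' f.support v]
  rw [if_pos]
  rw [mem_support_iff, h1]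
  exact one_ne_zero

/-- The linear algebra: a functional on polynomials in `w` satisfying the two families of
relations vanishes on `w^k` for `1 ≤ k`, `3k < 2g`. -/
theorem core (g : ℕ) (ρ : (ZMod 2)[X] →ₗ[ZMod 2] ZMod 2)
    (hRS : ∀ a b c, 1 ≤ b → 1 ≤ c → a + b + c = 2 * g → ρ (tau b a) = ρ (tau c a))
    (hRS2 : ∀ a b c, 1 ≤ a → 1 ≤ b → 1 ≤ c → a + b + c = 2 * g →
      ρ (tau b a) + ρ (tau c b) + ρ (tau a c) = 0) :
    ∀ k, 1 ≤ k → 3 * k < 2 * g → ρ (X ^ k) = 0 := by
  -- diagonal relations
  have hD : ∀ i a, 1 ≤ i → 1 ≤ a → a + 2 * i = 2 * g → ρ (tau i a) = 0 := by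
    intro i a hi ha h
    obtain ⟨a', rfl⟩ : ∃ a', a = a' + 1 := ⟨a - 1, by omega⟩
    rw [tau_succ, map_add, hRS a' i (i + 1) hi (by omega) (by omega)]
    exact CharTwo.add_self_eq_zero _
  -- the relations `E_v`
  have hE : ∀ v, 1 ≤ v → v < g → ρ (tau (2 * v) (g - v)) + ρ (tau (g - v) (2 * v - 1)) = 0 := by
    intro v hv hvg
    have h := hRS2 (g - v + 1) (g - v) (2 * v - 1) (by omega) (by omega) (by omega) (by omega)
    rw [hRS (g - v + 1) (g - v) (2 * v - 1) (by omega) (by omega) (by omega),
      hRS (2 * v - 1) (g - v + 1) (g - v) (by omega) (by omega) (by omega)] at h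
    have h2 : ρ (tau (2 * v - 1) (g - v + 1)) + ρ (tau (2 * v - 1) (g - v))
        = ρ (tau (2 * v) (g - v)) := by
      rw [tau_succ, map_add, show 2 * v - 1 + 1 = 2 * v by omega]
      have := CharTwo.add_self_eq_zero (ρ (tau (2 * v - 1) (g - v)))
      linear_combination this
    rw [← h2]
    exact h
  -- step 1: small exponents
  have hlow : ∀ t v, 1 ≤ v → 2 * v ≤ g → g ≤ 2 * v + t → ρ (X ^ v) = 0 := by
    intro t
    induction t using Nat.strong_induction_on with
    | _ t ih =>
      intro v hv hvg ht
      -- all larger exponents up to `g/2` vanish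
      have hbig : ∀ k, v < k → 2 * k ≤ g → ρ (X ^ k) = 0 := by
        intro k hk hkg
        exact ih (g - 2 * k) (by omega) k (by omega) hkg (by omega)
      by_cases h3 : 3 * v ≤ g
      · have hE' := hE v hv (by omega)
        rw [← map_add] at hE'
        rw [← hE']
        symm
        apply eval_single
        · rw [coeff_add, tau_low v _ _ (by omega) (by omega)]
          obtain ⟨v', rfl⟩ : ∃ v', v = v' + 1 := ⟨v - 1, by omega⟩
          rw [show 2 * (v' + 1) - 1 = 2 * v' + 1 by omega, tau_first v' _ (by omega), zero_add]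
        · intro k hk
          rcases Nat.lt_or_gt_of_ne hk with h | h
          · left
            rw [coeff_add, tau_low k _ _ (by omega) (by omega), tau_low k _ _ (by omega) (by omega),
              add_zero]
          · by_cases hkg : 2 * k ≤ g
            · right; exact hbig k h hkg
            · left
              rw [coeff_add, tau_deg _ _ k (by omega), tau_deg _ _ k (by omega), add_zero]
      · -- use `A_j = w^j pw (g - 2j)`
        have hA : ∀ j, 1 ≤ j → 2 * j ≤ g → ρ (X ^ j * pw (g - 2 * j)) = 0 := by
          intro j hj hjg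
          have := hD (g - j) (2 * j) (by omega) (by omega) (by omega)
          rw [show g - j = (g - 2 * j) + j by omega, show 2 * j = 0 + 2 * j by ring,
            tau_shift, tau_zero] at this
          simpa using this
        rcases Nat.even_or_odd' g with ⟨h, rfl | rfl⟩
        · -- `g` even
          rcases Nat.eq_or_lt_of_le (show v ≤ h by omega) with rfl | hvh
          · have := hA v hv (by omega)
            rw [Nat.sub_self, pw_zero, mul_one] at this
            exact this
          · -- `κ = h - v ≥ 1`
            obtain ⟨e, o, ho, hκ⟩ := Nat.exists_eq_two_pow_mul_odd (show h - v ≠ 0 by omega)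
            obtain ⟨o', rfl⟩ := ho
            have hpos : 0 < 2 ^ e := by positivity
            have hle : 2 ^ e ≤ h - v := by
              rw [hκ]; exact Nat.le_mul_of_pos_right _ (by omega)
            have hj1 : 2 * 2 ^ e < v := by omega
            have hA' := hA (v - 2 * 2 ^ e) (by omega) (by omega)
            have hidx : 2 * h - 2 * (v - 2 * 2 ^ e) = 2 ^ (e + 1) * (2 * o' + 3) := by
              have : 2 * h - 2 * (v - 2 * 2 ^ e) = 2 * (h - v) + 4 * 2 ^ e := by omega
              rw [this, hκ]; ring
            rw [hidx] at hA'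
            rw [← hA']
            symm
            have hp1 : (2:ℕ) ^ (e + 1) = 2 * 2 ^ e := by ring
            have hlowp := pw_low o' (e + 1)
            apply eval_single
            · rw [show v = 2 ^ (e + 1) + (v - 2 * 2 ^ e) by omega, coeff_X_pow_mul']
              rw [if_pos (by omega)]
              rw [show 2 ^ (e + 1) + (v - 2 * 2 ^ e) - (2 ^ (e + 1) + (v - 2 * 2 ^ e) - 2 * 2 ^ e)
                = 2 ^ (e + 1) by omega]
              exact hlowp.2
            · intro k hk
              rcases Nat.lt_or_gt_of_ne hk with h' | h'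
              · left
                rw [coeff_X_pow_mul']
                split_ifs with hc
                · exact hlowp.1 _ (by omega)
                · rfl
              · by_cases hkg : 2 * k ≤ 2 * h
                · right; exact hbig k h' hkg
                · left
                  rw [coeff_X_pow_mul']
                  split_ifs with hc
                  · apply pw_deg
                    rw [← hidx]; omega
                  · rfl
        · -- `g` odd
          have hv2 : 2 ≤ v := by omega
          have hA' := hA (v - 1) (by omega) (by omega)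
          rw [show 2 * h + 1 - 2 * (v - 1) = 2 * (h - v) + 3 by omega] at hA'
          rw [← hA']
          symm
          apply eval_single
          · rw [coeff_X_pow_mul', if_pos (by omega), show v - (v - 1) = 1 by omega]
            exact (pw_coeff_one (h - v)).1
          · intro k hk
            rcases Nat.lt_or_gt_of_ne hk with h' | h'
            · left
              rw [coeff_X_pow_mul']
              split_ifs with hc
              · rw [show k - (v - 1) = 0 by omega]
                exact pw_coeff_zero _ (by omega)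
              · rfl
            · by_cases hkg : 2 * k ≤ 2 * h + 1
              · right; exact hbig k h' hkg
              · left
                rw [coeff_X_pow_mul']
                split_ifs with hc
                · apply pw_deg; omega
                · rfl
  have hlow' : ∀ v, 1 ≤ v → 2 * v ≤ g → ρ (X ^ v) = 0 :=
    fun v hv hvg => hlow g v hv hvg (by omega)
  -- step 2: large exponents
  intro k
  induction k using Nat.strong_induction_on with
  | _ k ih =>
    intro hk hkg
    by_cases h2 : 2 * k ≤ g
    · exact hlow' k hk h2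
    · have hB := hD (2 * g - 3 * k) (6 * k - 2 * g) (by omega) (by omega) (by omega)
      have hsh : tau (2 * g - 3 * k) (6 * k - 2 * g)
          = X ^ (2 * g - 3 * k) * tau 0 (12 * k - 6 * g) := by
        rw [← tau_shift (2 * g - 3 * k) 0 (12 * k - 6 * g)]
        congr 1 <;> omega
      rw [hsh] at hB
      rw [← hB]
      symm
      apply eval_single
      · rw [coeff_X_pow_mul', if_pos (by omega)]
        exact tau_lead _ 0 _ (by omega)
      · intro m hm
        rcases Nat.lt_or_gt_of_ne hm with h' | h'
        · rcases Nat.eq_zero_or_pos m with rfl | hm0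
          · left
            rw [coeff_X_pow_mul', if_neg (by omega)]
          · right
            exact ih m h' hm0 (by omega)
        · left
          rw [coeff_X_pow_mul']
          split_ifs with hc
          · exact tau_deg _ 0 _ (by omega)
          · rfl

end Pool.Agent.TH846.St
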