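import Mathlib
import Pool.Agent.TH846.St.Core

/-!
Steinhaus triangles invariant under the symmetric group on three letters.
-/

set_option autoImplicit false

namespace Pool.Agent.TH846.St

open MvPolynomial

/-- the ring of forms in three letters -/
abbrev R3 := MvPolynomial (Fin 3) (ZMod 2)

/-- the functional on forms given by a triangle of size `N` -/
noncomputable def Lf (N : ℕ) (F : ℕ → ℕ → ℕ → ZMod 2) : R3 →ₗ[ZMod 2] ZMod 2 :=
  (basisMonomials (Fin 3) (ZMod 2)).constr (ZMod 2)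
    (fun e => if e 0 + e 1 + e 2 = N then F (e 0) (e 1) (e 2) else 0)

/-- the monomial with exponents `a b c` -/
noncomputable def mo (a b c : ℕ) : R3 := X 0 ^ a * X 1 ^ b * X 2 ^ c

theorem mo_eq (a b c : ℕ) : mo a b c = monomial
    (Finsupp.single 0 a + Finsupp.single 1 b + Finsupp.single 2 c) (1 : ZMod 2) := by
  unfold mo
  rw [X_pow_eq_monomial, X_pow_eq_monomial, X_pow_eq_monomial, monomial_mul, monomial_mul]
  simp

theorem Lf_mo (N : ℕ) (F : ℕ → ℕ → ℕ → ZMod 2) (a b c : ℕ) :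
    Lf N F (mo a b c) = if a + b + c = N then F a b c else 0 := by
  rw [mo_eq]
  have h := (basisMonomials (Fin 3) (ZMod 2)).constr_basis (ZMod 2)
    (fun e => if e 0 + e 1 + e 2 = N then F (e 0) (e 1) (e 2) else 0)
    (Finsupp.single 0 a + Finsupp.single 1 b + Finsupp.single 2 c)
  rw [coe_basisMonomials] at h
  unfold Lf
  rw [h]
  simp

theorem mo_ind (P : R3 → Prop) (h0 : P 0) (hadd : ∀ p q, P p → P q → P (p + q))
    (hm : ∀ a b c, P (mo a b c)) : ∀ p, P p := by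
  intro p
  induction p using MvPolynomial.induction_on' with
  | monomial e a =>
    have ha : a = 0 ∨ a = 1 := by revert a; decide
    rcases ha with rfl | rfl
    · rw [monomial_zero]; exact h0
    · have he : e = Finsupp.single 0 (e 0) + Finsupp.single 1 (e 1) + Finsupp.single 2 (e 2) := by
        apply Finsupp.ext
        intro i
        fin_cases i <;> simp
      have : monomial e (1 : ZMod 2) = mo (e 0) (e 1) (e 2) := by
        rw [mo_eq, ← he]
      rw [this]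
      exact hm _ _ _
  | add p q hp hq => exact hadd p q hp hq

theorem Lf_sigma (N : ℕ) (F : ℕ → ℕ → ℕ → ZMod 2)
    (hrule : ∀ a b c, a + b + c + 1 = N → F (a + 1) b c + F a (b + 1) c + F a b (c + 1) = 0) :
    ∀ p, Lf N F ((X 0 + X 1 + X 2) * p) = 0 := by
  apply mo_ind
  · simp
  · intro p q hp hq; rw [mul_add, map_add, hp, hq, add_zero]
  · intro a b c
    have h : (X 0 + X 1 + X 2) * mo a b c = mo (a + 1) b c + mo a (b + 1) c + mo a b (c + 1) := by
      unfold mo; ring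
    rw [h, map_add, map_add, Lf_mo, Lf_mo, Lf_mo]
    by_cases hN : a + b + c + 1 = N
    · rw [if_pos (by omega), if_pos (by omega), if_pos (by omega)]
      exact hrule a b c hN
    · rw [if_neg (by omega), if_neg (by omega), if_neg (by omega)]
      simp

/-- the rotation of the three letters -/
def rot : Fin 3 → Fin 3 := ![1, 2, 0]

theorem rot0 : rot 0 = 1 := rfl
theorem rot1 : rot 1 = 2 := rfl
theorem rot2 : rot 2 = 0 := rfl

theorem Lf_rot (N : ℕ) (F : ℕ → ℕ → ℕ → ZMod 2)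
    (hrot : ∀ a b c, a + b + c = N → F a b c = F c a b) :
    ∀ p, Lf N F (rename rot p) = Lf N F p := by
  apply mo_ind
  · simp
  · intro p q hp hq; rw [map_add, map_add, map_add, hp, hq]
  · intro a b c
    have h : rename rot (mo a b c) = mo c a b := by
      unfold mo
      simp only [map_mul, map_pow, rename_X, rot0, rot1, rot2]
      ring
    rw [h, Lf_mo, Lf_mo]
    by_cases hN : a + b + c = N
    · rw [if_pos (by omega), if_pos hN, hrot a b c hN]
    · rw [if_neg (by omega), if_neg hN]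

/-- the second elementary symmetric form -/
noncomputable def e2 : R3 := X 0 * X 1 + X 1 * X 2 + X 2 * X 0

theorem two_zero : (2 : R3) = 0 := CharTwo.two_eq_zero

/-- `e2` may be replaced by `X0^2 + X1 X2` -/
theorem Lf_e2 (N : ℕ) (F : ℕ → ℕ → ℕ → ZMod 2)
    (hrule : ∀ a b c, a + b + c + 1 = N → F (a + 1) b c + F a (b + 1) c + F a b (c + 1) = 0)
    (u : R3) : Lf N F (u * e2) = Lf N F (u * X 0 ^ 2) + Lf N F (u * (X 1 * X 2)) := by
  have h : u * e2 = u * X 0 ^ 2 + u * (X 1 * X 2) + (X 0 + X 1 + X 2) * (u * X 0) := by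
    unfold e2
    linear_combination (- u * X 0 ^ 2) * two_zero
  rw [h, map_add, map_add, Lf_sigma N F hrule, add_zero]

section

variable {L : ℕ} {F : ℕ → ℕ → ℕ → ZMod 2}

/-- symmetric forms are killed -/
theorem Lf_sym_zero
    (hrule : ∀ a b c, a + b + c + 1 = 2 * L → F (a + 1) b c + F a (b + 1) c + F a b (c + 1) = 0)
    (h12 : ∀ a b c, a + b + c = 2 * L → F a b c = F a c b)
    (hmid : F 0 L L = 0) :
    ∀ c i j, i + j + c = L →
      Lf (2 * L) F (X 0 ^ (2 * i) * (X 1 * X 2) ^ j * e2 ^ c) = 0 := by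
  intro c
  induction c with
  | zero =>
    intro i j h
    have hm : X 0 ^ (2 * i) * (X 1 * X 2) ^ j * e2 ^ 0 = mo (2 * i) j j := by unfold mo; ring
    rw [hm, Lf_mo, if_pos (by omega)]
    rcases Nat.eq_zero_or_pos i with rfl | hi
    · rw [show j = L by omega]; exact hmid
    · have h1 := hrule (2 * i - 1) j j (by omega)
      rw [show 2 * i - 1 + 1 = 2 * i by omega, h12 (2 * i - 1) (j + 1) j (by omega)] at h1
      have h2 := CharTwo.add_self_eq_zero (F (2 * i - 1) j (j + 1))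
      linear_combination h1 - h2
  | succ c ih =>
    intro i j h
    rw [pow_succ e2 c, ← mul_assoc, Lf_e2 (2 * L) F hrule]
    have h1 : X 0 ^ (2 * i) * (X 1 * X 2) ^ j * e2 ^ c * X 0 ^ 2
        = X 0 ^ (2 * (i + 1)) * (X 1 * X 2) ^ j * e2 ^ c := by ring
    have h2 : X 0 ^ (2 * i) * (X 1 * X 2) ^ j * e2 ^ c * (X 1 * X 2)
        = X 0 ^ (2 * i) * (X 1 * X 2) ^ (j + 1) * e2 ^ c := by ring
    rw [h1, h2, ih (i + 1) j (by omega), ih i (j + 1) (by omega), add_zero]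

/-- the values `R i j k` -/
noncomputable def Rv (L : ℕ) (F : ℕ → ℕ → ℕ → ZMod 2) (i j k : ℕ) : ZMod 2 :=
  Lf (2 * L) F (X 0 * X 1 * X 0 ^ (2 * i) * (X 1 * X 2) ^ j * e2 ^ k)

theorem Rv_rule
    (hrule : ∀ a b c, a + b + c + 1 = 2 * L → F (a + 1) b c + F a (b + 1) c + F a b (c + 1) = 0)
    (i j k : ℕ) : Rv L F i j (k + 1) = Rv L F (i + 1) j k + Rv L F i (j + 1) k := by
  unfold Rv
  have h0 : X 0 * X 1 * X 0 ^ (2 * i) * (X 1 * X 2) ^ j * e2 ^ (k + 1)
      = (X 0 * X 1 * X 0 ^ (2 * i) * (X 1 * X 2) ^ j * e2 ^ k) * e2 := by ring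
  have h1 : X 0 * X 1 * X 0 ^ (2 * i) * (X 1 * X 2) ^ j * e2 ^ k * X 0 ^ 2
      = X 0 * X 1 * X 0 ^ (2 * (i + 1)) * (X 1 * X 2) ^ j * e2 ^ k := by ring
  have h2 : X 0 * X 1 * X 0 ^ (2 * i) * (X 1 * X 2) ^ j * e2 ^ k * (X 1 * X 2)
      = X 0 * X 1 * X 0 ^ (2 * i) * (X 1 * X 2) ^ (j + 1) * e2 ^ k := by ring
  rw [h0, Lf_e2 (2 * L) F hrule, h1, h2]

theorem three_zero (x : ZMod 2) (h : x + x + x = 0) : x = 0 := by
  revert x; decide

/-- the invariant form used below -/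
noncomputable def sf (k c : ℕ) : R3 := (X 0 * X 1 * X 2) ^ (2 * k) * e2 ^ c

theorem rot_sf (k c : ℕ) : rename rot (sf k c) = sf k c := by
  unfold sf e2
  simp only [map_mul, map_pow, map_add, rename_X, rot0, rot1, rot2]
  ring

theorem Rv_zero1
    (hrule : ∀ a b c, a + b + c + 1 = 2 * L → F (a + 1) b c + F a (b + 1) c + F a b (c + 1) = 0)
    (h12 : ∀ a b c, a + b + c = 2 * L → F a b c = F a c b)
    (hrot : ∀ a b c, a + b + c = 2 * L → F a b c = F c a b)
    (hmid : F 0 L L = 0) (k c : ℕ) (h : 3 * k + c + 1 = L) : Rv L F k (2 * k) c = 0 := by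
  have h0 : Rv L F k (2 * k) c = Lf (2 * L) F (X 0 * X 1 * sf k c) := by
    unfold Rv sf; congr 1; ring
  have h1 : Lf (2 * L) F (X 0 * X 1 * sf k c) = Lf (2 * L) F (X 1 * X 2 * sf k c) := by
    have hren : rename rot (X 0 * X 1 * sf k c) = X 1 * X 2 * sf k c := by
      simp only [map_mul, rot_sf, rename_X, rot0, rot1]
    rw [← Lf_rot (2 * L) F hrot (X 0 * X 1 * sf k c), hren]
  have h2 : Lf (2 * L) F (X 1 * X 2 * sf k c) = Lf (2 * L) F (X 2 * X 0 * sf k c) := by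
    have hren : rename rot (X 1 * X 2 * sf k c) = X 2 * X 0 * sf k c := by
      simp only [map_mul, rot_sf, rename_X, rot1, rot2]
    rw [← Lf_rot (2 * L) F hrot (X 1 * X 2 * sf k c), hren]
  have hs : Lf (2 * L) F (X 0 * X 1 * sf k c) + Lf (2 * L) F (X 1 * X 2 * sf k c)
      + Lf (2 * L) F (X 2 * X 0 * sf k c) = 0 := by
    rw [← map_add, ← map_add]
    rw [← Lf_sym_zero hrule h12 hmid (c + 1) k (2 * k) (by omega)]
    congr 1
    unfold sf e2; ring
  rw [h0]
  apply three_zero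
  rw [← h2, ← h1] at hs
  exact hs

theorem Rv_zero2
    (hrule : ∀ a b c, a + b + c + 1 = 2 * L → F (a + 1) b c + F a (b + 1) c + F a b (c + 1) = 0)
    (h12 : ∀ a b c, a + b + c = 2 * L → F a b c = F a c b)
    (hrot : ∀ a b c, a + b + c = 2 * L → F a b c = F c a b)
    (hmid : F 0 L L = 0) (k c : ℕ) (h : 3 * k + 1 + c + 1 = L) :
    Rv L F (k + 1) (2 * k) c = 0 := by
  have h0 : Rv L F (k + 1) (2 * k) c = Lf (2 * L) F (X 0 ^ 3 * X 1 * sf k c) := by
    unfold Rv sf; congr 1; ring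
  have h1 : Lf (2 * L) F (X 0 ^ 3 * X 1 * sf k c) = Lf (2 * L) F (X 1 ^ 3 * X 2 * sf k c) := by
    have hren : rename rot (X 0 ^ 3 * X 1 * sf k c) = X 1 ^ 3 * X 2 * sf k c := by
      simp only [map_mul, map_pow, rot_sf, rename_X, rot0, rot1]
    rw [← Lf_rot (2 * L) F hrot (X 0 ^ 3 * X 1 * sf k c), hren]
  have h2 : Lf (2 * L) F (X 1 ^ 3 * X 2 * sf k c) = Lf (2 * L) F (X 2 ^ 3 * X 0 * sf k c) := by
    have hren : rename rot (X 1 ^ 3 * X 2 * sf k c) = X 2 ^ 3 * X 0 * sf k c := by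
      simp only [map_mul, map_pow, rot_sf, rename_X, rot1, rot2]
    rw [← Lf_rot (2 * L) F hrot (X 1 ^ 3 * X 2 * sf k c), hren]
  have hs : Lf (2 * L) F (X 0 ^ 3 * X 1 * sf k c) + Lf (2 * L) F (X 1 ^ 3 * X 2 * sf k c)
      + Lf (2 * L) F (X 2 ^ 3 * X 0 * sf k c) = 0 := by
    rw [← map_add, ← map_add]
    have hid : X 0 ^ 3 * X 1 * sf k c + X 1 ^ 3 * X 2 * sf k c + X 2 ^ 3 * X 0 * sf k c
        = X 0 ^ (2 * k) * (X 1 * X 2) ^ (2 * k) * e2 ^ (c + 2)
          + (X 0 + X 1 + X 2) * ((X 0 ^ 2 * X 1 + X 1 ^ 2 * X 2 + X 2 ^ 2 * X 0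
            + X 0 * X 1 * X 2) * sf k c) := by
      have hsf : X 0 ^ (2 * k) * (X 1 * X 2) ^ (2 * k) * e2 ^ (c + 2) = sf k c * e2 ^ 2 := by
        unfold sf; ring
      rw [hsf]
      have h4 : (X 0 ^ 3 * X 1 + X 1 ^ 3 * X 2 + X 2 ^ 3 * X 0 : R3) = e2 ^ 2
          + (X 0 + X 1 + X 2) * (X 0 ^ 2 * X 1 + X 1 ^ 2 * X 2 + X 2 ^ 2 * X 0
            + X 0 * X 1 * X 2) := by
        unfold e2
        linear_combination (- (X 0 ^ 2 * X 1 ^ 2 + X 1 ^ 2 * X 2 ^ 2 + X 2 ^ 2 * X 0 ^ 2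
          + 2 * (X 0 ^ 2 * X 1 * X 2 + X 0 * X 1 ^ 2 * X 2 + X 0 * X 1 * X 2 ^ 2))) * two_zero
      linear_combination (sf k c) * h4
    rw [hid, map_add, Lf_sigma (2 * L) F hrule, add_zero]
    exact Lf_sym_zero hrule h12 hmid (c + 2) k (2 * k) (by omega)
  rw [h0]
  apply three_zero
  rw [← h2, ← h1] at hs
  exact hs

end

end Pool.Agent.TH846.St
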