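import Mathlib
import Pool.Agent.TH846.St.Tri

/-!
A Steinhaus triangle with full symmetry and regularity modulo four vanishes.
-/

set_option autoImplicit false

namespace Pool.Agent.TH846.St

section

variable {L : ℕ} {F : ℕ → ℕ → ℕ → ZMod 2}

theorem Rv_start (i j : ℕ) (h : i + j + 1 = L) :
    Rv L F i j 0 = F (2 * i + 1) (j + 1) j := by
  have hm : (MvPolynomial.X 0 * MvPolynomial.X 1 * MvPolynomial.X 0 ^ (2 * i)
      * (MvPolynomial.X 1 * MvPolynomial.X 2) ^ j * e2 ^ 0 : R3) = mo (2 * i + 1) (j + 1) j := by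
    unfold mo; ring
  unfold Rv
  rw [hm, Lf_mo, if_pos (by omega)]

/-- the doubled rule -/
theorem rule_two
    (hrule : ∀ a b c, a + b + c + 1 = 2 * L → F (a + 1) b c + F a (b + 1) c + F a b (c + 1) = 0)
    (a b c : ℕ) (h : a + b + c + 2 = 2 * L) :
    F (a + 2) b c + F a (b + 2) c + F a b (c + 2) = 0 := by
  have h1 := hrule (a + 1) b c (by omega)
  have h2 := hrule a (b + 1) c (by omega)
  have h3 := hrule a b (c + 1) (by omega)
  have e1 := CharTwo.add_self_eq_zero (F (a + 1) (b + 1) c)
  have e2' := CharTwo.add_self_eq_zero (F (a + 1) b (c + 1))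
  have e3 := CharTwo.add_self_eq_zero (F a (b + 1) (c + 1))
  linear_combination h1 + h2 + h3 - e1 - e2' - e3

theorem Rv_eq
    (hrule : ∀ a b c, a + b + c + 1 = 2 * L → F (a + 1) b c + F a (b + 1) c + F a b (c + 1) = 0)
    (h12 : ∀ a b c, a + b + c = 2 * L → F a b c = F a c b)
    (hE : ∀ i j, i + j + 1 = L → F (2 * i + 1) 1 (2 * j) = F (2 * i + 1) j (j + 1)) :
    ∀ k i j, i + j + k + 1 = L → Rv L F i j k = F (2 * i + 1) (2 * k + 1) (2 * j) := by
  intro k
  induction k with
  | zero =>
    intro i j h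
    rw [Rv_start i j (by omega), h12 (2 * i + 1) (j + 1) j (by omega), ← hE i j (by omega)]
  | succ k ih =>
    intro i j h
    rw [Rv_rule hrule, ih (i + 1) j (by omega), ih i (j + 1) (by omega)]
    have h1 := rule_two hrule (2 * i + 1) (2 * k + 1) (2 * j) (by omega)
    rw [show 2 * (i + 1) + 1 = 2 * i + 1 + 2 by ring, show 2 * (j + 1) = 2 * j + 2 by ring,
      show 2 * (k + 1) + 1 = 2 * k + 1 + 2 by ring]
    have e1 := CharTwo.add_self_eq_zero (F (2 * i + 1) (2 * k + 1 + 2) (2 * j))
    linear_combination h1 - e1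

/-- the functional on polynomials in `w` -/
noncomputable def rho (L : ℕ) (F : ℕ → ℕ → ℕ → ZMod 2) :
    Polynomial (ZMod 2) →ₗ[ZMod 2] ZMod 2 :=
  (Polynomial.basisMonomials (ZMod 2)).constr (ZMod 2)
    (fun k => Rv L F (k + 1) (2 * (k - 1)) (L - 3 * k))

theorem rho_pow (k : ℕ) : rho L F (Polynomial.X ^ k) =
    Rv L F (k + 1) (2 * (k - 1)) (L - 3 * k) := by
  have h := (Polynomial.basisMonomials (ZMod 2)).constr_basis (ZMod 2)
    (fun k => Rv L F (k + 1) (2 * (k - 1)) (L - 3 * k)) k
  rw [Polynomial.coe_basisMonomials] at h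
  unfold rho
  rw [← Polynomial.monomial_one_right_eq_X_pow]
  exact h

theorem Rv_rho
    (hrule : ∀ a b c, a + b + c + 1 = 2 * L → F (a + 1) b c + F a (b + 1) c + F a b (c + 1) = 0)
    (h12 : ∀ a b c, a + b + c = 2 * L → F a b c = F a c b)
    (hrot : ∀ a b c, a + b + c = 2 * L → F a b c = F c a b)
    (hmid : F 0 L L = 0) :
    ∀ s i j, i + j = s → s + 1 ≤ L → Rv L F i j (L - 1 - s) = rho L F (tau (i + 1) j) := by
  intro s
  induction s with
  | zero =>
    intro i j h hs
    obtain ⟨rfl, rfl⟩ : i = 0 ∧ j = 0 := by omega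
    have h1 := Rv_zero1 hrule h12 hrot hmid 0 (L - 1) (by omega)
    rw [tau_zero, zero_add, pw_one, map_zero]
    simpa using h1
  | succ s ih =>
    -- all entries of the antidiagonal have the same defect
    have hstep : ∀ i j, i + j = s → s + 2 ≤ L →
        Rv L F (i + 1) j (L - 1 - (s + 1)) + rho L F (tau (i + 1 + 1) j)
          = Rv L F i (j + 1) (L - 1 - (s + 1)) + rho L F (tau (i + 1) (j + 1)) := by
      intro i j h hs
      have h1 := ih i j h (by omega)
      have h2 := Rv_rule (F := F) hrule i j (L - 1 - (s + 1))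
      rw [show L - 1 - (s + 1) + 1 = L - 1 - s by omega] at h2
      rw [tau_succ, map_add]
      have e1 := CharTwo.add_self_eq_zero (Rv L F i (j + 1) (L - 1 - (s + 1)))
      have e3 := CharTwo.add_self_eq_zero (rho L F (tau (i + 1) j))
      linear_combination h1 - h2 - e1
    have hconst : ∀ j, j ≤ s + 1 → s + 2 ≤ L →
        Rv L F (s + 1 - j) j (L - 1 - (s + 1)) + rho L F (tau (s + 1 - j + 1) j)
          = Rv L F (s + 1) 0 (L - 1 - (s + 1)) + rho L F (tau (s + 1 + 1) 0) := by
      intro j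
      induction j with
      | zero => intro _ _; rfl
      | succ j ihj =>
        intro hj hs
        rw [← ihj (by omega) hs]
        have := hstep (s - j) j (by omega) hs
        rw [show s + 1 - (j + 1) = s - j by omega, show s + 1 - j = s - j + 1 by omega]
        exact this.symm
    intro i j h hs
    have hs' : s + 2 ≤ L := by omega
    -- an anchor
    have hanchor : ∃ i0 j0, i0 + j0 = s + 1 ∧
        Rv L F i0 j0 (L - 1 - (s + 1)) + rho L F (tau (i0 + 1) j0) = 0 := by
      obtain ⟨k, hk⟩ : ∃ k, s + 1 = 3 * k ∨ s + 1 = 3 * k + 1 ∨ s + 1 = 3 * k + 2 :=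
        ⟨(s + 1) / 3, by omega⟩
      rcases hk with hk | hk | hk
      · refine ⟨k, 2 * k, by omega, ?_⟩
        rw [Rv_zero1 hrule h12 hrot hmid k _ (by omega)]
        have : tau (k + 1) (2 * k) = 0 := by
          rw [show k + 1 = 1 + k by ring, show 2 * k = 0 + 2 * k by ring, tau_shift, tau_zero,
            pw_one, mul_zero]
        rw [this, map_zero, add_zero]
      · refine ⟨k + 1, 2 * k, by omega, ?_⟩
        rw [Rv_zero2 hrule h12 hrot hmid k _ (by omega)]
        have : tau (k + 1 + 1) (2 * k) = 0 := by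
          rw [show k + 1 + 1 = 2 + k by ring, show 2 * k = 0 + 2 * k by ring, tau_shift, tau_zero,
            pw_two, mul_zero]
        rw [this, map_zero, add_zero]
      · refine ⟨k + 2, 2 * k, by omega, ?_⟩
        have : tau (k + 2 + 1) (2 * k) = Polynomial.X ^ (k + 1) := by
          rw [show k + 2 + 1 = 3 + k by ring, show 2 * k = 0 + 2 * k by ring, tau_shift, tau_zero,
            show 3 = 0 + 3 by ring, pw_succ, zero_add, pw_one, pw_zero, mul_one, zero_add, pow_succ]
        rw [this, rho_pow]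
        rw [show k + 1 + 1 = k + 2 by ring, show k + 1 - 1 = k by omega,
          show L - 3 * (k + 1) = L - 1 - (s + 1) by omega]
        exact CharTwo.add_self_eq_zero _
    obtain ⟨i0, j0, h0, hz⟩ := hanchor
    have c1 := hconst j0 (by omega) hs'
    have c2 := hconst j (by omega) hs'
    rw [show s + 1 - j0 = i0 by omega] at c1
    rw [show s + 1 - j = i by omega] at c2
    rw [hz] at c1
    rw [← c1] at c2
    have e1 := CharTwo.add_self_eq_zero (rho L F (tau (i + 1) j))
    linear_combination c2 - e1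

end

/-- A triangle of size `2(2g-1)` with full symmetry, zero midpoint of the side, and regular
modulo four, vanishes. -/
theorem tri_zero (g : ℕ) (hg : 1 ≤ g) (F : ℕ → ℕ → ℕ → ZMod 2)
    (hrule : ∀ a b c, a + b + c + 1 = 2 * (2 * g - 1) →
      F (a + 1) b c + F a (b + 1) c + F a b (c + 1) = 0)
    (h12 : ∀ a b c, a + b + c = 2 * (2 * g - 1) → F a b c = F a c b)
    (h01 : ∀ a b c, a + b + c = 2 * (2 * g - 1) → F a b c = F b a c)
    (hmid : F 0 (2 * g - 1) (2 * g - 1) = 0)
    (hE : ∀ i j, i + j + 1 = 2 * g - 1 → F (2 * i + 1) 1 (2 * j) = F (2 * i + 1) j (j + 1)) :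
    ∀ a b c, a + b + c = 2 * (2 * g - 1) → F a b c = 0 := by
  set L := 2 * g - 1 with hL
  have hrot : ∀ a b c, a + b + c = 2 * L → F a b c = F c a b := by
    intro a b c h
    rw [h12 a b c h, h01 a c b (by omega)]
  have hG := Rv_eq hrule h12 hE
  have hR := Rv_rho hrule h12 hrot hmid
  -- values of the functional
  have hval : ∀ a b c, 1 ≤ b → 1 ≤ c → a + b + c = 2 * g →
      rho L F (tau b a) = F (2 * (b - 1) + 1) (2 * (c - 1) + 1) (2 * a) := by
    intro a b c hb hc h
    have h1 := hR (b - 1 + a) (b - 1) a rfl (by omega)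
    rw [show b - 1 + 1 = b by omega] at h1
    rw [← h1, hG _ _ _ (by omega), show L - 1 - (b - 1 + a) = c - 1 by omega]
  have hcore := core g (rho L F)
    (by
      intro a b c hb hc h
      rw [hval a b c hb hc h, hval a c b hc hb (by omega)]
      exact h01 _ _ _ (by omega))
    (by
      intro a b c ha hb hc h
      rw [hval a b c hb hc h, hval b c a hc ha (by omega), hval c a b ha hb (by omega)]
      have h1 := hrule (2 * (a - 1) + 1) (2 * (b - 1) + 1) (2 * (c - 1) + 1) (by omega)
      rw [show 2 * (a - 1) + 1 + 1 = 2 * a by omega, show 2 * (b - 1) + 1 + 1 = 2 * b by omega,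
        show 2 * (c - 1) + 1 + 1 = 2 * c by omega] at h1
      rw [hrot (2 * (b - 1) + 1) (2 * (c - 1) + 1) (2 * a) (by omega),
        h01 (2 * (c - 1) + 1) (2 * (a - 1) + 1) (2 * b) (by omega),
        h12 (2 * (a - 1) + 1) (2 * (c - 1) + 1) (2 * b) (by omega)]
      exact h1)
  -- the functional vanishes on `tau`
  have htau : ∀ a b, 1 ≤ b → a + b ≤ L → rho L F (tau b a) = 0 := by
    intro a b hb h
    have hsum : tau b a = (tau b a).sum fun k x => Polynomial.C x * Polynomial.X ^ k :=
      (Polynomial.sum_C_mul_X_pow_eq _).symm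
    rw [hsum, Polynomial.sum, map_sum]
    apply Finset.sum_eq_zero
    intro k _
    rw [← Polynomial.smul_eq_C_mul, map_smul]
    rcases Nat.eq_zero_or_pos k with rfl | hk
    · rw [tau_low 0 b a (by omega) (by omega), zero_smul]
    · by_cases h3 : 3 * k < 2 * g
      · rw [hcore k hk h3, smul_zero]
      · rw [tau_deg a b k (by omega), zero_smul]
  -- odd, odd, even entries
  have hooe : ∀ i k j, i + k + j + 1 = L → F (2 * i + 1) (2 * k + 1) (2 * j) = 0 := by
    intro i k j h
    have h1 := hval j (i + 1) (k + 1) (by omega) (by omega) (by omega)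
    rw [htau j (i + 1) (by omega) (by omega)] at h1
    simpa using h1.symm
  have heee : ∀ i j k, i + j + k = L → F (2 * i) (2 * j) (2 * k) = 0 := by
    -- first with a positive first index
    have hpos : ∀ i j k, 1 ≤ i → i + j + k = L → F (2 * i) (2 * j) (2 * k) = 0 := by
      intro i j k hi h
      have h1 := hrule (2 * (i - 1) + 1) (2 * j) (2 * k) (by omega)
      rw [show 2 * (i - 1) + 1 + 1 = 2 * i by omega] at h1
      rw [h12 (2 * (i - 1) + 1) (2 * j) (2 * k + 1) (by omega),
        hooe (i - 1) j k (by omega), hooe (i - 1) k j (by omega)] at h1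
      simpa using h1
    intro i j k h
    rcases Nat.eq_zero_or_pos i with rfl | hi
    · rcases Nat.eq_zero_or_pos j with rfl | hj
      · rw [← hrot (2 * 0) (2 * k) (2 * 0) (by omega), h01 (2 * 0) (2 * k) (2 * 0) (by omega)]
        exact hpos k 0 0 (by omega) (by omega)
      · rw [h01 (2 * 0) (2 * j) (2 * k) (by omega)]
        exact hpos j 0 k hj (by omega)
    · exact hpos i j k hi h
  intro a b c h
  rcases Nat.even_or_odd' a with ⟨i, rfl | rfl⟩ <;> rcases Nat.even_or_odd' b with ⟨j, rfl | rfl⟩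
  · obtain ⟨k, rfl⟩ : ∃ k, c = 2 * k := ⟨c / 2, by omega⟩
    exact heee i j k (by omega)
  · obtain ⟨k, rfl⟩ : ∃ k, c = 2 * k + 1 := ⟨c / 2, by omega⟩
    rw [h01 _ _ _ h, h12 _ _ _ (by omega)]
    exact hooe j k i (by omega)
  · obtain ⟨k, rfl⟩ : ∃ k, c = 2 * k + 1 := ⟨c / 2, by omega⟩
    rw [h12 _ _ _ h]
    exact hooe i k j (by omega)
  · obtain ⟨k, rfl⟩ : ∃ k, c = 2 * k := ⟨c / 2, by omega⟩
    exact hooe i j k (by omega)

end Pool.Agent.TH846.St
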