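import Mathlib
import Pool.Agent.TH846.St.Tri2

/-!
From a regular Steinhaus graph of odd degree to a triangle with full symmetry.
-/

set_option autoImplicit false

namespace Pool.Agent.TH846.St

/-! ### Generalities on triangles -/

/-- telescoping sum in characteristic two -/
theorem tele (T : ℕ → ZMod 2) (n : ℕ) :
    ∑ t ∈ Finset.range n, (T t + T (t + 1)) = T 0 + T n := by
  induction n with
  | zero => rw [Finset.sum_range_zero]; exact (CharTwo.add_self_eq_zero _).symm
  | succ n ih =>
    rw [Finset.sum_range_succ, ih]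
    have := CharTwo.add_self_eq_zero (T n)
    linear_combination this

theorem sum_val (f : ℕ → ZMod 2) (n : ℕ) :
    ((∑ t ∈ Finset.range n, (f t).val : ℕ) : ZMod 2) = ∑ t ∈ Finset.range n, f t := by
  push_cast
  apply Finset.sum_congr rfl
  intro t _
  exact ZMod.natCast_zmod_val (f t)

theorem pal_even (f : ℕ → ℕ) (c : ℕ) (h : ∀ t, t < 2 * c → f t = f (2 * c - 1 - t)) :
    ∑ t ∈ Finset.range (2 * c), f t = 2 * ∑ t ∈ Finset.range c, f t := by
  rw [two_mul c, Finset.sum_range_add, two_mul]
  congr 1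
  rw [← Finset.sum_range_reflect]
  apply Finset.sum_congr rfl
  intro t ht
  rw [Finset.mem_range] at ht
  rw [h (c + (c - 1 - t)) (by omega)]
  congr 1
  omega

theorem pal_odd (f : ℕ → ℕ) (c : ℕ) (h : ∀ t, t < 2 * c + 1 → f t = f (2 * c - t)) :
    ∑ t ∈ Finset.range (2 * c + 1), f t = 2 * (∑ t ∈ Finset.range c, f t) + f c := by
  rw [show 2 * c + 1 = (c + 1) + c by ring, Finset.sum_range_add, Finset.sum_range_succ, two_mul]
  have : ∑ x ∈ Finset.range c, f (c + 1 + x) = ∑ x ∈ Finset.range c, f x := by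
    rw [← Finset.sum_range_reflect]
    apply Finset.sum_congr rfl
    intro t ht
    rw [Finset.mem_range] at ht
    rw [h (c + 1 + (c - 1 - t)) (by omega)]
    congr 1
    omega
  rw [this]
  ring

/-- A triangle whose axis vanishes is symmetric. -/
theorem sym_of_axis (N : ℕ) (H : ℕ → ℕ → ℕ → ZMod 2)
    (hrule : ∀ a b c, a + b + c + 1 = N → H (a + 1) b c + H a (b + 1) c + H a b (c + 1) = 0)
    (hax : ∀ k b, 2 * k + b + 1 = N → H k (b + 1) k = 0) :
    ∀ δ a b c, a = c + δ → a + b + c = N → H a b c = H c b a := by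
  intro δ
  induction δ using Nat.strong_induction_on with
  | _ δ ih =>
    intro a b c hac h
    rcases Nat.eq_zero_or_pos δ with rfl | hδ
    · rw [show a = c by omega]
    · have r1 := hrule (a - 1) b c (by omega)
      have r2 := hrule c b (a - 1) (by omega)
      rw [show a - 1 + 1 = a by omega] at r1 r2
      rcases Nat.eq_or_lt_of_le (show 1 ≤ δ from hδ) with h1 | h1
      · subst h1
        have ha : a - 1 = c := by omega
        rw [ha] at r1 r2
        have e1 := hax c b (by omega)
        rw [e1] at r1 r2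
        rw [show c + 1 = a by omega] at r1 r2
        have e2' := CharTwo.add_self_eq_zero (H c b a)
        linear_combination r1 - e2'
      · have s1 := ih (δ - 1) (by omega) (a - 1) (b + 1) c (by omega) (by omega)
        have s2 := ih (δ - 2) (by omega) (a - 1) b (c + 1) (by omega) (by omega)
        have e1 := CharTwo.add_self_eq_zero (H c b a)
        linear_combination r1 - r2 - s1 - s2 + e1 - e1

/-- A triangle with a symmetric side is symmetric. -/
theorem sym_of_side (N : ℕ) (H : ℕ → ℕ → ℕ → ZMod 2)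
    (hrule : ∀ a b c, a + b + c + 1 = N → H (a + 1) b c + H a (b + 1) c + H a b (c + 1) = 0)
    (hside : ∀ b c, b + c = N → H 0 b c = H 0 c b) :
    ∀ a b c, a + b + c = N → H a b c = H a c b := by
  intro a
  induction a with
  | zero => intro b c h; exact hside b c (by omega)
  | succ a ih =>
    intro b c h
    have r1 := hrule a b c (by omega)
    have r2 := hrule a c b (by omega)
    have s1 := ih (b + 1) c (by omega)
    have s2 := ih b (c + 1) (by omega)
    linear_combination r1 - r2 - s1 - s2

/-- Line sums in a triangle with full symmetry. -/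
def line (N : ℕ) (F : ℕ → ℕ → ℕ → ZMod 2) (k : ℕ) : ℕ :=
  ∑ t ∈ Finset.range (N + 1 - k), (F k t (N - k - t)).val

/-- The conditions `hmid` and `hE` from regularity. -/
theorem conditions (L g : ℕ) (hL : 1 ≤ L) (F : ℕ → ℕ → ℕ → ZMod 2)
    (hrule : ∀ a b c, a + b + c + 1 = 2 * L → F (a + 1) b c + F a (b + 1) c + F a b (c + 1) = 0)
    (h12 : ∀ a b c, a + b + c = 2 * L → F a b c = F a c b)
    (h01 : ∀ a b c, a + b + c = 2 * L → F a b c = F b a c)
    (hreg : ∀ k, k ≤ 2 * L + 1 → line (2 * L) F k + line (2 * L) F (2 * L + 1 - k) = 2 * g) :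
    F 0 L L = 0 ∧
      ∀ i j, i + j + 1 = L → F (2 * i + 1) 1 (2 * j) = F (2 * i + 1) j (j + 1) := by
  -- axis entries
  have haxis : ∀ i j, 1 ≤ i → i + j = L → F (2 * i) j j = 0 := by
    intro i j hi h
    have h1 := hrule (2 * i - 1) j j (by omega)
    rw [show 2 * i - 1 + 1 = 2 * i by omega, h12 (2 * i - 1) (j + 1) j (by omega)] at h1
    have h2 := CharTwo.add_self_eq_zero (F (2 * i - 1) j (j + 1))
    linear_combination h1 - h2
  -- line sums
  have hl1 : ∀ κ c, κ + c = L → line (2 * L) F (2 * κ) =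
      2 * (∑ t ∈ Finset.range c, (F (2 * κ) t (2 * c - t)).val) + (F (2 * κ) c c).val := by
    intro κ c h
    unfold line
    rw [show 2 * L + 1 - 2 * κ = 2 * c + 1 by omega]
    rw [pal_odd]
    · congr 1
      · congr 1
        apply Finset.sum_congr rfl
        intro t _
        rw [show 2 * L - 2 * κ - t = 2 * c - t by omega]
      · rw [show 2 * L - 2 * κ - c = c by omega]
    · intro t ht
      rw [h12 (2 * κ) t (2 * L - 2 * κ - t) (by omega)]
      rw [show 2 * L - 2 * κ - t = 2 * c - t by omega,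
        show 2 * L - 2 * κ - (2 * c - t) = t by omega]
  have hl2 : ∀ κ c, κ + c = L → line (2 * L) F (2 * L + 1 - 2 * κ) =
      2 * (∑ t ∈ Finset.range κ, (F (2 * c + 1) t (2 * κ - 1 - t)).val) := by
    intro κ c h
    unfold line
    rw [show 2 * L + 1 - (2 * L + 1 - 2 * κ) = 2 * κ by omega,
      show 2 * L + 1 - 2 * κ = 2 * c + 1 by omega]
    rw [pal_even]
    · congr 1
      apply Finset.sum_congr rfl
      intro t _
      rw [show 2 * L - (2 * c + 1) - t = 2 * κ - 1 - t by omega]
    · intro t ht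
      rw [h12 (2 * c + 1) t (2 * L - (2 * c + 1) - t) (by omega)]
      rw [show 2 * L - (2 * c + 1) - t = 2 * κ - 1 - t by omega,
        show 2 * L - (2 * c + 1) - (2 * κ - 1 - t) = t by omega]
  have hmid : F 0 L L = 0 := by
    have h1 := hreg (2 * 0) (by omega)
    rw [hl1 0 L (by omega), hl2 0 L (by omega)] at h1
    have h2 : (F (2 * 0) L L).val % 2 = 0 := by omega
    have h3 : (F (2 * 0) L L).val < 2 := ZMod.val_lt _
    have h4 : (F (2 * 0) L L).val = 0 := by omega
    simpa using (ZMod.val_eq_zero _).mp h4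
  refine ⟨hmid, ?_⟩
  have haxis' : ∀ i j, i + j = L → F (2 * i) j j = 0 := by
    intro i j h
    rcases Nat.eq_zero_or_pos i with rfl | hi
    · rw [show j = L by omega]; exact hmid
    · exact haxis i j hi h
  -- the halved relations modulo two
  have hhalf : ∀ κ c, 1 ≤ κ → κ + c = L →
      F (2 * κ - 1) 1 (2 * c) + F (2 * κ - 1) c (c + 1) = (g : ZMod 2) := by
    intro κ c hκ h
    have h1 := hreg (2 * κ) (by omega)
    rw [hl1 κ c h, hl2 κ c h, haxis' κ c h, ZMod.val_zero] at h1
    have h2 : (∑ t ∈ Finset.range c, (F (2 * κ) t (2 * c - t)).val)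
        + (∑ t ∈ Finset.range κ, (F (2 * c + 1) t (2 * κ - 1 - t)).val) = g := by omega
    have h3 := congrArg (fun m : ℕ => (m : ZMod 2)) h2
    simp only [Nat.cast_add] at h3
    rw [sum_val (fun t => F (2 * κ) t (2 * c - t)), sum_val (fun t => F (2 * c + 1) t (2 * κ - 1 - t))] at h3
    have t1 : ∑ t ∈ Finset.range c, F (2 * κ) t (2 * c - t)
        = F (2 * κ - 1) 0 (2 * c + 1) + F (2 * κ - 1) c (c + 1) := by
      have := tele (fun t => F (2 * κ - 1) t (2 * c + 1 - t)) c
      simp only [Nat.sub_zero] at this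
      rw [show 2 * c + 1 - c = c + 1 by omega] at this
      rw [← this]
      apply Finset.sum_congr rfl
      intro t ht
      rw [Finset.mem_range] at ht
      have r := hrule (2 * κ - 1) t (2 * c - t) (by omega)
      rw [show 2 * κ - 1 + 1 = 2 * κ by omega] at r
      rw [show 2 * c + 1 - (t + 1) = 2 * c - t by omega,
        show 2 * c + 1 - t = 2 * c - t + 1 by omega]
      have e1 := CharTwo.add_self_eq_zero (F (2 * κ - 1) (t + 1) (2 * c - t))
      have e2' := CharTwo.add_self_eq_zero (F (2 * κ - 1) t (2 * c - t + 1))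
      linear_combination r - e1 - e2'
    have t2 : ∑ t ∈ Finset.range κ, F (2 * c + 1) t (2 * κ - 1 - t)
        = F (2 * c) 0 (2 * κ) + F (2 * c) κ κ := by
      have := tele (fun t => F (2 * c) t (2 * κ - t)) κ
      simp only [Nat.sub_zero] at this
      rw [show 2 * κ - κ = κ by omega] at this
      rw [← this]
      apply Finset.sum_congr rfl
      intro t ht
      rw [Finset.mem_range] at ht
      have r := hrule (2 * c) t (2 * κ - 1 - t) (by omega)
      rw [show 2 * κ - (t + 1) = 2 * κ - 1 - t by omega,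
        show 2 * κ - t = 2 * κ - 1 - t + 1 by omega]
      have e1 := CharTwo.add_self_eq_zero (F (2 * c) (t + 1) (2 * κ - 1 - t))
      have e2' := CharTwo.add_self_eq_zero (F (2 * c) t (2 * κ - 1 - t + 1))
      linear_combination r - e1 - e2'
    rw [t1, t2, haxis' c κ (by omega)] at h3
    have hs : F (2 * c) 0 (2 * κ) = F (2 * κ) 0 (2 * c) := by
      rw [h01 _ _ _ (by omega), h12 _ _ _ (by omega), h01 _ _ _ (by omega)]
    rw [hs] at h3
    have r := hrule (2 * κ - 1) 0 (2 * c) (by omega)
    rw [show 2 * κ - 1 + 1 = 2 * κ by omega, zero_add] at r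
    have e1 := CharTwo.add_self_eq_zero (F (2 * κ) 0 (2 * c))
    have e2' := CharTwo.add_self_eq_zero (F (2 * κ - 1) 0 (2 * c + 1))
    linear_combination h3 + r - e1 - e2'
  have hg : (g : ZMod 2) = 0 := by
    have h1 := hhalf L 0 hL (by omega)
    rw [← h1, mul_zero, zero_add, h12 (2 * L - 1) 1 0 (by omega)]
    exact CharTwo.add_self_eq_zero _
  intro i j h
  have h1 := hhalf (i + 1) j (by omega) (by omega)
  rw [hg, show 2 * (i + 1) - 1 = 2 * i + 1 by omega] at h1
  have e1 := CharTwo.add_self_eq_zero (F (2 * i + 1) j (j + 1))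
  linear_combination h1 - e1

end Pool.Agent.TH846.St
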