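import Mathlib
import Pool.Agent.TH846.St.Graph

/-!
A Steinhaus matrix all of whose degrees equal the same odd number has size two.
-/

set_option autoImplicit false

namespace Pool.Agent.TH846.St

/-- degree of the vertex `v` in the graph on `0, …, n-1` with upper triangular part `a` -/
def dg (n : ℕ) (a : ℕ → ℕ → ZMod 2) (v : ℕ) : ℕ :=
  (∑ u ∈ Finset.range v, (a u v).val) + ∑ t ∈ Finset.range (n - 1 - v), (a v (v + 1 + t)).val

/-- the degree of an inner vertex without its neighbours among the two end vertices -/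
def dS (n : ℕ) (a : ℕ → ℕ → ZMod 2) (v : ℕ) : ℕ :=
  (∑ u ∈ Finset.range (v - 1), (a (u + 1) v).val)
    + ∑ t ∈ Finset.range (n - 2 - v), (a v (v + 1 + t)).val

theorem deg_mod_two (n : ℕ) (a : ℕ → ℕ → ZMod 2)
    (hrule : ∀ i j, i < j → a (i + 1) (j + 1) = a i j + a i (j + 1)) (p : ℕ) (hp : p + 3 ≤ n) :
    ((dg n a (p + 1) : ℕ) : ZMod 2) = a p (n - 1) + a 0 (p + 2) + a p (p + 2) := by
  unfold dg
  rw [Nat.cast_add, sum_val (fun u => a u (p + 1)), sum_val (fun t => a (p + 1) (p + 1 + 1 + t))]
  have t1 : ∑ u ∈ Finset.range (p + 1), a u (p + 1) = a 0 (p + 2) + a (p + 1) (p + 2) := by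
    rw [← tele (fun u => a u (p + 2)) (p + 1)]
    apply Finset.sum_congr rfl
    intro u hu
    rw [Finset.mem_range] at hu
    have r := hrule u (p + 1) hu
    have e1 := CharTwo.add_self_eq_zero (a u (p + 1 + 1))
    linear_combination -r - e1
  have t2 : ∑ t ∈ Finset.range (n - 1 - (p + 1)), a (p + 1) (p + 1 + 1 + t)
      = a p (p + 1) + a p (n - 1) := by
    have := tele (fun t => a p (p + 1 + t)) (n - 1 - (p + 1))
    simp only [add_zero] at this
    rw [show p + 1 + (n - 1 - (p + 1)) = n - 1 by omega] at this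
    rw [← this]
    apply Finset.sum_congr rfl
    intro t _
    have r := hrule p (p + 1 + t) (by omega)
    rw [show p + 1 + 1 + t = p + 1 + t + 1 by ring, show p + 1 + (t + 1) = p + 1 + t + 1 by ring]
    exact r
  rw [t1, t2]
  have r := hrule p (p + 1) (by omega)
  have e1 := CharTwo.add_self_eq_zero (a p (p + 1))
  rw [show p + 1 + 1 = p + 2 by ring] at r
  linear_combination r + e1

theorem odd_cast (d : ℕ) (hd : Odd d) : (d : ZMod 2) = 1 := by
  obtain ⟨k, rfl⟩ := hd
  push_cast
  have : (2 : ZMod 2) = 0 := by decide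
  rw [this, zero_mul, zero_add]

/-- the relations between the entries of a Steinhaus matrix with odd degrees -/
theorem three_term (n : ℕ) (a : ℕ → ℕ → ZMod 2)
    (hrule : ∀ i j, i < j → a (i + 1) (j + 1) = a i j + a i (j + 1))
    (hodd : ∀ v, v < n → Odd (dg n a v)) :
    ∀ z x y, x + y + z + 3 = n →
      a x (x + y + 2) + a z (z + x + 2) + a x (x + z + 2) = if z = 0 then 1 else 0 := by
  intro z
  induction z with
  | zero =>
    intro x y h
    have h1 := deg_mod_two n a hrule x (by omega)
    rw [odd_cast _ (hodd (x + 1) (by omega))] at h1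
    rw [show n - 1 = x + y + 2 by omega] at h1
    rw [if_pos rfl, h1, zero_add, add_zero]
  | succ z ih =>
    intro x y h
    rw [if_neg (by omega)]
    have h1 := ih x (y + 1) (by omega)
    have h2 := ih (x + 1) y (by omega)
    have r1 := hrule x (x + y + 2) (by omega)
    have r2 := hrule z (z + x + 2) (by omega)
    have r3 := hrule x (x + z + 2) (by omega)
    rw [show x + (y + 1) + 2 = x + y + 2 + 1 by ring] at h1
    rw [show x + 1 + y + 2 = x + y + 2 + 1 by ring, show z + (x + 1) + 2 = z + x + 2 + 1 by ring,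
      show x + 1 + z + 2 = x + z + 2 + 1 by ring] at h2
    rw [show z + 1 + x + 2 = z + x + 2 + 1 by ring, show x + (z + 1) + 2 = x + z + 2 + 1 by ring]
    have e1 := CharTwo.add_self_eq_zero (a x (x + y + 2 + 1))
    have e3 := CharTwo.add_self_eq_zero (a z (z + x + 2))
    have e4 := CharTwo.add_self_eq_zero (if z = 0 then (1 : ZMod 2) else 0)
    have e5 := CharTwo.add_self_eq_zero (a x (x + z + 2))
    have e6 := CharTwo.add_self_eq_zero (a (x + 1) (x + y + 2 + 1))
    have e7 := CharTwo.add_self_eq_zero (a z (z + x + 2 + 1))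
    have e8 := CharTwo.add_self_eq_zero (a (x + 1) (x + z + 2 + 1))
    linear_combination h1 + h2 + e4 - r1 + r2 - r3 - e1 - e5

theorem val_flip (x : ZMod 2) : (x + 1).val + x.val = 1 := by
  revert x; decide

theorem val_inj2 (x y : ZMod 2) (h : x.val = y.val) : x = y := ZMod.val_injective 2 h

/-- A Steinhaus matrix all of whose vertices have the same odd degree has size two. -/
theorem odd_regular (n : ℕ) (hn : 2 ≤ n) (a : ℕ → ℕ → ZMod 2)
    (hrule : ∀ i j, i < j → a (i + 1) (j + 1) = a i j + a i (j + 1))
    (d : ℕ) (hd : Odd d) (hreg : ∀ v, v < n → dg n a v = d) : n = 2 ∧ a 0 1 = 1 := by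
  rcases Nat.eq_or_lt_of_le hn with rfl | hn3
  · refine ⟨rfl, ?_⟩
    have h := hreg 0 (by norm_num)
    unfold dg at h
    simp only [Finset.range_zero, Finset.sum_empty, zero_add, Nat.reduceSub, Nat.sub_zero,
      Finset.sum_range_one, add_zero] at h
    have h2 : (a 0 1).val < 2 := ZMod.val_lt _
    obtain ⟨k, rfl⟩ := hd
    have h3 : (a 0 1).val = 1 := by omega
    exact val_inj2 _ _ h3
  exfalso
  have h3t := three_term n a hrule (fun v hv => by rw [hreg v hv]; exact hd)
  -- the corner entry
  have hcorner : a 0 (n - 1) = 1 := by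
    have h := h3t 0 0 (n - 3) (by omega)
    rw [if_pos rfl, show 0 + (n - 3) + 2 = n - 1 by omega] at h
    have e1 := CharTwo.add_self_eq_zero (a 0 (0 + 0 + 2))
    linear_combination h - e1
  -- the corrected triangle
  have hsym : ∀ δ x y z, x = z + δ → x + y + z = n - 2 →
      a x (x + y + 1) + (if z = 0 then 1 else 0) = a z (z + y + 1) + (if x = 0 then 1 else 0) := by
    apply sym_of_axis (n - 2) (fun x y z => a x (x + y + 1) + (if z = 0 then 1 else 0))
    · intro x y z _
      rw [if_neg (show ¬ z + 1 = 0 by omega)]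
      have r := hrule x (x + y + 1) (by omega)
      rw [show x + 1 + y + 1 = x + y + 1 + 1 by ring, show x + (y + 1) + 1 = x + y + 1 + 1 by ring]
      have e1 := CharTwo.add_self_eq_zero (if z = 0 then (1 : ZMod 2) else 0)
      have e2' := CharTwo.add_self_eq_zero (a x (x + y + 1))
      have e3 := CharTwo.add_self_eq_zero (a x (x + y + 1 + 1))
      linear_combination r + e1 + e2' + e3
    · intro k b h
      rcases Nat.eq_zero_or_pos k with rfl | hk
      · rw [if_pos rfl, show 0 + (b + 1) + 1 = n - 1 by omega, hcorner]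
        decide
      · rw [if_neg (by omega), add_zero]
        have h := h3t k k b (by omega)
        rw [if_neg (by omega)] at h
        have e1 := CharTwo.add_self_eq_zero (a k (k + k + 2))
        rw [show k + (b + 1) + 1 = k + b + 2 by ring]
        linear_combination h - e1
  -- last column
  have hlast : ∀ i, 1 ≤ i → i ≤ n - 2 → a i (n - 1) = a 0 (n - 1 - i) + 1 := by
    intro i h1 h2
    have h := hsym i i (n - 2 - i) 0 (by omega) (by omega)
    rw [if_pos rfl, if_neg (by omega), show i + (n - 2 - i) + 1 = n - 1 by omega,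
      show 0 + (n - 2 - i) + 1 = n - 1 - i by omega] at h
    have e1 := CharTwo.add_self_eq_zero (1 : ZMod 2)
    linear_combination h - e1
  -- the inner part is doubly symmetric
  have hinner : ∀ u i, 1 ≤ u → u < i → i ≤ n - 2 → a u i = a (n - 1 - i) (n - 1 - u) := by
    intro u i h1 h2 h3
    rcases Nat.le_total (n - 1 - i) u with h | h
    · have hs := hsym (u - (n - 1 - i)) u (i - u - 1) (n - 1 - i) (by omega) (by omega)
      rw [if_neg (by omega), if_neg (by omega), add_zero, add_zero,
        show u + (i - u - 1) + 1 = i by omega,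
        show n - 1 - i + (i - u - 1) + 1 = n - 1 - u by omega] at hs
      exact hs
    · have hs := hsym (n - 1 - i - u) (n - 1 - i) (i - u - 1) u (by omega) (by omega)
      rw [if_neg (by omega), if_neg (by omega), add_zero, add_zero,
        show u + (i - u - 1) + 1 = i by omega,
        show n - 1 - i + (i - u - 1) + 1 = n - 1 - u by omega] at hs
      exact hs.symm
  -- degrees of inner vertices
  have hsplit : ∀ i, 1 ≤ i → i ≤ n - 2 →
      dg n a i = (a 0 i).val + dS n a i + (a i (n - 1)).val := by
    intro i h1 h2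
    unfold dg dS
    rw [show Finset.range i = Finset.range ((i - 1) + 1) by congr 1; omega,
      show Finset.range (n - 1 - i) = Finset.range ((n - 2 - i) + 1) by congr 1; omega,
      Finset.sum_range_succ', Finset.sum_range_succ, show i + 1 + (n - 2 - i) = n - 1 by omega]
    ring
  have hdSsym : ∀ i, 1 ≤ i → i ≤ n - 2 → dS n a i = dS n a (n - 1 - i) := by
    have haux : ∀ i, 1 ≤ i → i ≤ n - 2 →
        ∑ u ∈ Finset.range (i - 1), (a (u + 1) i).val
          = ∑ t ∈ Finset.range (n - 2 - (n - 1 - i)), (a (n - 1 - i) (n - 1 - i + 1 + t)).val := by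
      intro i h1 h2
      rw [show n - 2 - (n - 1 - i) = i - 1 by omega, ← Finset.sum_range_reflect]
      apply Finset.sum_congr rfl
      intro u hu
      rw [Finset.mem_range] at hu
      rw [hinner (i - 1 - 1 - u + 1) i (by omega) (by omega) h2]
      congr 2
      omega
    intro i h1 h2
    unfold dS
    rw [haux i h1 h2, haux (n - 1 - i) (by omega) (by omega)]
    rw [show n - 1 - (n - 1 - i) = i by omega]
    ring
  have hkey : ∀ i, 1 ≤ i → i ≤ n - 2 →
      (a 0 i).val = (a 0 (n - 1 - i)).val ∧ dS n a i + 1 = d := by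
    intro i h1 h2
    have e1 := hsplit i h1 h2
    have e2' := hsplit (n - 1 - i) (by omega) (by omega)
    rw [hreg _ (by omega), hlast i h1 h2] at e1
    rw [hreg _ (by omega), hlast (n - 1 - i) (by omega) (by omega),
      show n - 1 - (n - 1 - i) = i by omega, ← hdSsym i h1 h2] at e2'
    have f1 := val_flip (a 0 (n - 1 - i))
    have f2 := val_flip (a 0 i)
    have g1 : (a 0 i).val < 2 := ZMod.val_lt _
    have g2 : (a 0 (n - 1 - i)).val < 2 := ZMod.val_lt _
    constructor <;> omega
  -- the number of vertices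
  have hn2d : n = 2 * d := by
    have e0 := hreg 0 (by omega)
    have e1 := hreg (n - 1) (by omega)
    unfold dg at e0 e1
    rw [Finset.range_zero, Finset.sum_empty, zero_add,
      show Finset.range (n - 1 - 0) = Finset.range ((n - 2) + 1) by congr 1; omega,
      Finset.sum_range_succ, show 0 + 1 + (n - 2) = n - 1 by omega, hcorner] at e0
    rw [Nat.sub_self, Finset.range_zero, Finset.sum_empty, add_zero,
      show Finset.range (n - 1) = Finset.range ((n - 2) + 1) by congr 1; omega,
      Finset.sum_range_succ', hcorner] at e1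
    have hsum : ∑ u ∈ Finset.range (n - 2), (a (u + 1) (n - 1)).val
        + ∑ t ∈ Finset.range (n - 2), (a 0 (0 + 1 + t)).val = n - 2 := by
      rw [← Finset.sum_range_reflect (fun t => (a 0 (0 + 1 + t)).val), ← Finset.sum_add_distrib]
      have : ∀ u ∈ Finset.range (n - 2), (a (u + 1) (n - 1)).val
          + (a 0 (0 + 1 + (n - 2 - 1 - u))).val = 1 := by
        intro u hu
        rw [Finset.mem_range] at hu
        rw [hlast (u + 1) (by omega) (by omega),
          show 0 + 1 + (n - 2 - 1 - u) = n - 1 - (u + 1) by omega]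
        exact val_flip _
      rw [Finset.sum_congr rfl this, Finset.sum_const, Finset.card_range, smul_eq_mul, mul_one]
    rw [ZMod.val_one] at e0 e1
    omega
  obtain ⟨g, hg⟩ := hd
  have hg1 : 1 ≤ g := by omega
  -- the inner triangle
  have hFrule : ∀ x y z, x + y + z + 1 = 2 * (2 * g - 1) →
      a (x + 1 + 1) (x + 1 + y + 2) + a (x + 1) (x + (y + 1) + 2) + a (x + 1) (x + y + 2) = 0 := by
    intro x y z _
    have r := hrule (x + 1) (x + y + 2) (by omega)
    rw [show x + 1 + y + 2 = x + y + 2 + 1 by ring, show x + (y + 1) + 2 = x + y + 2 + 1 by ring]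
    have e1 := CharTwo.add_self_eq_zero (a (x + 1) (x + y + 2))
    have e2' := CharTwo.add_self_eq_zero (a (x + 1) (x + y + 2 + 1))
    linear_combination r + e1 + e2'
  have h12 : ∀ x y z, x + y + z = 2 * (2 * g - 1) →
      a (x + 1) (x + y + 2) = a (x + 1) (x + z + 2) := by
    apply sym_of_side (2 * (2 * g - 1)) (fun x y z => a (x + 1) (x + y + 2)) hFrule
    intro b c h
    simp only [zero_add]
    have r1 := hrule 0 (b + 1) (by omega)
    have r2 := hrule 0 (c + 1) (by omega)
    rw [zero_add, show b + 1 + 1 = b + 2 by ring] at r1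
    rw [zero_add, show c + 1 + 1 = c + 2 by ring] at r2
    have s1 := val_inj2 _ _ (hkey (b + 1) (by omega) (by omega)).1
    have s2 := val_inj2 _ _ (hkey (b + 2) (by omega) (by omega)).1
    rw [show n - 1 - (b + 1) = c + 2 by omega] at s1
    rw [show n - 1 - (b + 2) = c + 1 by omega] at s2
    rw [r1, r2, s1, s2]
    ring
  have h02 : ∀ x y z, x + y + z = 2 * (2 * g - 1) →
      a (x + 1) (x + y + 2) = a (z + 1) (z + y + 2) := by
    intro x y z h
    rw [hinner (x + 1) (x + y + 2) (by omega) (by omega) (by omega)]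
    rw [show n - 1 - (x + y + 2) = z + 1 by omega, show n - 1 - (x + 1) = z + y + 2 by omega]
  have h01 : ∀ x y z, x + y + z = 2 * (2 * g - 1) →
      a (x + 1) (x + y + 2) = a (y + 1) (y + x + 2) := by
    intro x y z h
    rw [h02 x y z h, h12 z y x (by omega), h02 z x y (by omega)]
  have hline : ∀ k, k ≤ 2 * (2 * g - 1) + 1 →
      line (2 * (2 * g - 1)) (fun x y z => a (x + 1) (x + y + 2)) k
        + line (2 * (2 * g - 1)) (fun x y z => a (x + 1) (x + y + 2)) (2 * (2 * g - 1) + 1 - k)
          = 2 * g := by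
    intro k hk
    have h1 := (hkey (k + 1) (by omega) (by omega)).2
    have h2 : dS n a (k + 1) = 2 * g := by omega
    refine Eq.trans ?_ h2
    unfold dS line
    rw [add_comm]
    congr 1
    · rw [show 2 * (2 * g - 1) + 1 - (2 * (2 * g - 1) + 1 - k) = k + 1 - 1 by omega]
      apply Finset.sum_congr rfl
      intro u hu
      rw [Finset.mem_range] at hu
      show (a (2 * (2 * g - 1) + 1 - k + 1) (2 * (2 * g - 1) + 1 - k + u + 2)).val
        = (a (u + 1) (k + 1)).val
      rw [← h12 (2 * (2 * g - 1) + 1 - k) (k - 1 - u) u (by omega),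
        h02 (2 * (2 * g - 1) + 1 - k) (k - 1 - u) u (by omega),
        show u + (k - 1 - u) + 2 = k + 1 by omega]
    · rw [show n - 2 - (k + 1) = 2 * (2 * g - 1) + 1 - k by omega]
      apply Finset.sum_congr rfl
      intro t _
      show (a (k + 1) (k + t + 2)).val = (a (k + 1) (k + 1 + 1 + t)).val
      rw [show k + t + 2 = k + 1 + 1 + t by ring]
  have hcond := conditions (2 * g - 1) g (by omega) (fun x y z => a (x + 1) (x + y + 2))
    hFrule h12 h01 hline
  have hzero := tri_zero g hg1 (fun x y z => a (x + 1) (x + y + 2)) hFrule h12 h01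
    hcond.1 hcond.2
  have hl := hline 0 (by omega)
  have hz : ∀ k, line (2 * (2 * g - 1)) (fun x y z => a (x + 1) (x + y + 2)) k = 0 := by
    intro k
    unfold line
    apply Finset.sum_eq_zero
    intro t ht
    rw [Finset.mem_range] at ht
    have := hzero k t (2 * (2 * g - 1) - k - t) (by omega)
    show (a (k + 1) (k + t + 2)).val = 0
    rw [this, ZMod.val_zero]
  rw [hz, hz] at hl
  omega

end Pool.Agent.TH846.St
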