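import Mathlib
import Pool.Agent.TH846.St.Odd

/-!
Degrees in the graph defined by an upper triangular matrix.
-/

set_option autoImplicit false

namespace Pool.Agent.TH846.St

theorem ncard_dg (n : ℕ) (a : ℕ → ℕ → ZMod 2) (v : Fin n) :
    ((SimpleGraph.fromRel (fun u w : Fin n => u < w ∧ a u.val w.val = 1)).neighborSet v).ncard
      = dg n a v.val := by
  classical
  have hset : (SimpleGraph.fromRel (fun u w : Fin n => u < w ∧ a u.val w.val = 1)).neighborSet v
      = ↑(Finset.univ.filter (fun w : Fin n => (v.val < w.val ∧ a v.val w.val = 1) ∨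
        (w.val < v.val ∧ a w.val v.val = 1))) := by
    ext w
    simp only [SimpleGraph.mem_neighborSet, SimpleGraph.fromRel_adj, Finset.coe_filter,
      Finset.mem_univ, true_and, Set.mem_ofPred_eq, Fin.lt_def]
    constructor
    · rintro ⟨_, h⟩; exact h
    · intro h
      refine ⟨?_, h⟩
      rintro rfl
      rcases h with h | h <;> exact absurd h.1 (lt_irrefl _)
  rw [hset, Set.ncard_coe_finset, Finset.card_filter]
  rw [Fin.sum_univ_eq_sum_range (fun w => if (v.val < w ∧ a v.val w = 1) ∨
        (w < v.val ∧ a w v.val = 1) then 1 else 0) n]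
  have hv := v.isLt
  rw [show Finset.range n = Finset.range (v.val + 1 + (n - 1 - v.val)) by congr 1; omega,
    Finset.sum_range_add, Finset.sum_range_succ]
  unfold dg
  have hval : ∀ x : ZMod 2, x.val = if x = 1 then 1 else 0 := by decide
  rw [if_neg (by rintro (h | h) <;> exact absurd h.1 (lt_irrefl _)), add_zero]
  congr 1
  · apply Finset.sum_congr rfl
    intro u hu
    rw [Finset.mem_range] at hu
    rw [hval]
    apply if_congr _ rfl rfl
    constructor
    · rintro (h | h)
      · omega
      · exact h.2
    · intro h; exact Or.inr ⟨hu, h⟩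
  · apply Finset.sum_congr rfl
    intro t _
    rw [hval]
    apply if_congr _ rfl rfl
    constructor
    · rintro (h | h)
      · exact h.2
      · omega
    · intro h; exact Or.inl ⟨by omega, h⟩

end Pool.Agent.TH846.St
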